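import Pool.Agent.Lib.helper4.SigLP

set_option autoImplicit false

namespace Pool.Agent.H.MP_c77619_lc

open Pool.Agent.Lib.helper4.SigLP Pool.Agent.Lib.PR Submodule

abbrev Rl := ℕ × ℕ × ℕ × ℕ

inductive Gen (Ru : List Rl) : ℕ → List ℕ → List ℕ → Prop
  | bin {A B C σ u v} : (0, A, B, C) ∈ Ru → Gen Ru B σ u → Gen Ru C σ v → Gen Ru A σ (u ++ v)
  | push {A B f σ u} : (1, A, B, f) ∈ Ru → Gen Ru B (f :: σ) u → Gen Ru A σ u
  | pop {A B f σ u} : (2, A, B, f) ∈ Ru → Gen Ru B σ u → Gen Ru A (f :: σ) u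
  | ter {A a c σ} : (3, A, a, c) ∈ Ru → Gen Ru A σ [a]
  | eps {A b c σ} : (4, A, b, c) ∈ Ru → Gen Ru A σ []

def nv (l : List ℕ) : ℕ := l.foldr (fun x s => 2 ^ x * (2 * s + 1)) 0
def na (l : List ℕ) : ℕ := l.foldr (fun x s => 2 ^ (x + 1) * s) 1

theorem na_app (u v) : na (u ++ v) = na u * na v := by
  induction u <;> simp_all [na, mul_assoc]
theorem nv_app (u v) : nv (u ++ v) = na u * nv v + nv u := by
  induction u with
  | nil => simp [na, nv]
  | cons x u ih => simp only [na, nv, List.cons_append, List.foldr_cons] at ih ⊢; rw [ih]; ring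

theorem nv_inj (u v) (h : nv u = nv v) : u = v := by
  have : ∀ x y s t : ℕ, 2 ^ x * (2 * s + 1) = 2 ^ y * (2 * t + 1) → x = y ∧ s = t := fun x => by
    induction x with
    | zero => rintro (_ | y) s t <;> simp only [pow_succ', mul_assoc, pow_zero, true_and] <;> omega
    | succ x ih =>
      rintro (_ | y) s t <;> simp only [pow_succ', mul_assoc] <;> intro h
      · omega
      · simpa using ih y s t (by omega)
  induction u generalizing v with
  | nil => cases v; rfl; simp [nv, eq_comm] at h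
  | cons x u ih =>
    obtain _ | ⟨y, v⟩ := v
    · simp [nv] at h
    · obtain ⟨rfl, e⟩ := this _ _ _ _ h
      rw [ih v e]

def hm (h : List (List ℕ)) (w : List ℕ) : List ℕ := w.flatMap fun a => h.getD a []

abbrev Vc := List LP

def vev (x : ℕ → ℚ) (u : Vc) (j : Fin 5) : ℚ := ev x (u.getD j [])
def m5 (x y : Fin 5 → ℚ) : Fin 5 → ℚ := ![x 0 * y 0, x 1 * y 1, x 1 * y 2 + x 2 * y 0, x 3 * y 3, x 3 * y 4 + x 4 * y 0]
def vm (u v : Vc) : Vc := [mul (u.getD 0 []) (v.getD 0 []), mul (u.getD 1 []) (v.getD 1 []),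
  mul (u.getD 1 []) (v.getD 2 []) ++ mul (u.getD 2 []) (v.getD 0 []), mul (u.getD 3 []) (v.getD 3 []),
  mul (u.getD 3 []) (v.getD 4 []) ++ mul (u.getD 4 []) (v.getD 0 [])]
def vv (m : ℕ) : Vc := (List.range 5).map fun j => [[5 * m + j]]

variable (h g : List (List ℕ))

def cv (w : List ℕ) : Vc :=
  [1, na (hm h w), nv (hm h w), na (hm g w), nv (hm g w)].map fun n => List.replicate n []
def mu (w : List ℕ) : Fin 5 → ℚ := ![1, na (hm h w), nv (hm h w), na (hm g w), nv (hm g w)]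

theorem vev_vm (x u v) : vev x (vm u v) = m5 (vev x u) (vev x v) := by
  funext j; fin_cases j <;> simp [vev, vm, m5]
theorem vev_vv (x m) : vev x (vv m) = fun j : Fin 5 => x (5 * m + j) := by
  funext j; simp [vev, vv]
theorem vev_cv (x w) : vev x (cv h g w) = mu h g w := by
  funext j; fin_cases j <;> simp [vev, cv, mu]
theorem vev_sub (x s u) : vev x (u.map (sub s)) = vev (fun i => ev x (s i)) u := by
  funext j; exact (congrArg _ (List.getD_map (d := []) u (sub s))).trans (ev_sub ..)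
theorem mu_app (u v) : mu h g (u ++ v) = m5 (mu h g u) (mu h g v) := by
  funext j; fin_cases j <;> simp [mu, m5, hm, na_app, nv_app]

theorem m5_mem {s t : Set (Fin 5 → ℚ)} {W : Submodule ℚ (Fin 5 → ℚ)} (k : ∀ x ∈ s, ∀ y ∈ t, m5 x y ∈ W) {x y}
    (a : x ∈ span ℚ s) (b : y ∈ span ℚ t) : m5 x y ∈ W := by
  refine span_le.2 (Set.image2_subset_iff.2 k) ((map₂_span_span ℚ (LinearMap.mk₂ ℚ m5 ?_ ?_ ?_ ?_) s t).le
    (apply_mem_map₂ _ a b)) <;> intros <;> funext j <;> fin_cases j <;> simp [m5] <;> ring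

def cb (c : List (LP × LP × Vc)) (f : LP × LP × Vc → LP) (j : ℕ) : LP := c.flatMap fun a => mul (f a) (a.2.2.getD j [])

def Mem (L : List Vc) (u : Vc) : Prop := ∃ c : List (LP × LP × Vc), (∀ a ∈ c, a.2.2 ∈ L) ∧
  ∀ j < 5, Idn (u.getD j [] ++ cb c (·.2.1) j) (cb c (·.1) j)

def sp (x : ℕ → ℚ) (L : List Vc) : Submodule ℚ (Fin 5 → ℚ) := span ℚ (vev x '' {u | u ∈ L})

theorem Mem.sound {L u} (k : Mem L u) (x) : vev x u ∈ sp x L := by
  obtain ⟨c, a, b⟩ := k
  have : ∀ j : Fin 5, vev x u j + ev x (cb c (·.2.1) j) = ev x (cb c (·.1) j) := fun j => by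
    simpa [vev] using b j j.2 x
  clear b
  generalize vev x u = y at this
  induction c generalizing y with
  | nil => exact (funext fun j => by simpa [cb] using this j : y = 0) ▸ zero_mem _
  | cons e c ih =>
    have m : vev x e.2.2 ∈ sp x L := subset_span ⟨_, a e (by simp), rfl⟩
    refine (add_mem_cancel_right (smul_mem _ (ev x e.2.1 - ev x e.1) m)).1
      (ih (fun e l => a e (List.mem_cons_of_mem _ l)) _ fun j => ?_)
    have := this j
    simp only [cb, List.flatMap_cons, ev_app, ev_mul, Pi.add_apply, Pi.smul_apply, vev, smul_eq_mul] at this ⊢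
    linarith

abbrev Tb := List (List (List Vc))
def gg (G : Tb) (A t : ℕ) : List Vc := (G.getD A []).getD t []
def sc (G : Tb) (n t c i : ℕ) : LP := ((gg G (i / 5 / 5) t).getD (c / n ^ (i / 5) % n) []).getD (i % 5) []

def Cert (Ru : List Rl) (S : ℕ) (G : Tb) (N n : ℕ) : Prop :=
  (∀ D < N, ∀ t < N + 1, (gg G D t).length < n) ∧ (∀ u ∈ gg G S 0, Idn (u.getD 2 []) (u.getD 4 [])) ∧
  ∀ r ∈ Ru, (r.2.2.1 < N ∧ r.2.2.2 < N) ∧ ∀ t < N + 1,
    (r.1 = 0 → ∀ u ∈ gg G r.2.2.1 t, ∀ v ∈ gg G r.2.2.2 t, Mem (gg G r.2.1 t) (vm u v)) ∧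
    (r.1 = 1 → ∀ u ∈ gg G r.2.2.1 (r.2.2.2 + 1), ∀ c < n ^ (5 * N), Mem (gg G r.2.1 t) (u.map (sub (sc G n t c)))) ∧
    (r.1 = 2 → ∀ i < 5, Mem (gg G r.2.1 (r.2.2.2 + 1)) (vv (5 * r.2.2.1 + i))) ∧
    (r.1 = 3 → Mem (gg G r.2.1 t) (cv h g [r.2.2.1])) ∧ (r.1 = 4 → Mem (gg G r.2.1 t) (cv h g []))

def tp : List ℕ → ℕ
  | [] => 0
  | f :: _ => f + 1

theorem five (x : ℕ → ℚ) (L : List Vc) : ∃ k : ℕ → ℕ, (∀ i, k i ≤ L.length) ∧
    sp x L ≤ span ℚ (Set.range fun i : Fin 5 => vev x (L.getD (k i) [])) := by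
  obtain ⟨f, a, b, -⟩ := exists_fun_fin_finrank_span_eq ℚ (vev x '' {u | u ∈ L})
  have : ∀ i, ∃ k ≤ L.length, vev x (L.getD k []) = f i := fun i => by
    obtain ⟨_, c, d⟩ := a i
    obtain ⟨k, l, rfl⟩ := List.getElem_of_mem c
    exact ⟨k, l.le, by simpa [l] using d⟩
  choose k k1 k2 using this
  have l := (finrank_le (span ℚ (vev x '' {u | u ∈ L}))).trans_eq (Module.finrank_fin_fun ℚ)
  refine ⟨fun i => if l : i < _ then k ⟨i, l⟩ else 0, fun i => by dsimp only; split_ifs <;> simp [k1], ?_⟩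
  refine b.ge.trans (span_mono ?_)
  rintro _ ⟨i, rfl⟩
  exact ⟨⟨i, i.2.trans_le l⟩, by simpa using k2 i⟩

variable {h g}

theorem sound {Ru S G N n} (k : Cert h g Ru S G N n) {w} (a : Gen Ru S [] w) : hm h w = hm g w := by
  obtain ⟨k1, k2, k3⟩ := k
  have : ∀ t x, t < N + 1 → ∃ c < n ^ (5 * N), ∀ D < N, sp x (gg G D t) ≤
      span ℚ (Set.range fun i : Fin 5 => fun j : Fin 5 => ev x (sc G n t c (5 * (5 * D + i) + j))) := fun t x l => by
    choose k a b using fun D => five x (gg G D t)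
    obtain ⟨c, c1, c2⟩ := digits_ex n (5 * N) (fun m => k (m / 5) (m % 5)) fun m e =>
      (a ..).trans_lt (k1 _ (by omega) t l)
    refine ⟨c, c1, fun D e => (b D).trans_eq (congrArg _ (congrArg _ (funext₂ fun i j => ?_)))⟩
    rw [sc, show (5 * (5 * D + i) + j) / 5 = 5 * D + i by omega, c2 _ (by omega), show (5 * D + i) / 5 = D by omega,
      show (5 * D + i) % 5 = i by omega, show (5 * (5 * D + i) + j) % 5 = j by omega, vev]
  choose! ch c1 c2 using this
  let X : List ℕ → ℕ → ℚ := fun γ => γ.rec 0 fun _ γ x i => ev x (sc G n (tp γ) (ch (tp γ) x) i)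
  have : ∀ {A γ w}, Gen Ru A γ w → (∀ f ∈ γ, f < N) → mu h g w ∈ sp (X γ) (gg G A (tp γ)) := fun a => by
    have t : ∀ {γ}, (∀ f ∈ γ, f < N) → tp γ < N + 1 := by rintro (_ | _) <;> simp +contextual [tp]
    induction a with
    | bin r _ _ a b =>
      intro l
      rw [mu_app]
      refine m5_mem ?_ (a l) (b l)
      rintro _ ⟨u, a, rfl⟩ _ ⟨v, b, rfl⟩
      exact vev_vm .. ▸ (((k3 _ r).2 _ (t l)).1 rfl u a v b).sound _
    | push r _ a =>
      intro l
      refine span_le.2 ?_ (a (List.forall_mem_cons.2 ⟨(k3 _ r).1.2, l⟩))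
      rintro _ ⟨u, a, rfl⟩
      exact vev_sub .. ▸ (((k3 _ r).2 _ (t l)).2.1 rfl u a _ (c1 _ _ (t l))).sound _
    | @pop _ _ f _ _ r _ a =>
      intro l
      have l' := (List.forall_mem_cons.1 l).2
      refine span_le.2 ?_ (c2 _ _ (t l') _ (k3 _ r).1.1 (a l'))
      rintro _ ⟨i, rfl⟩
      exact (congrArg (· ∈ _) (vev_vv ..)).mp ((((k3 _ r).2 _ (t l)).2.2.1 rfl i i.2).sound (X (f :: _)))
    | ter r => exact fun l => vev_cv .. ▸ (((k3 _ r).2 _ (t l)).2.2.2.1 rfl).sound _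
    | eps r => exact fun l => vev_cv .. ▸ (((k3 _ r).2 _ (t l)).2.2.2.2 rfl).sound _
  have : mu h g w 2 = mu h g w 4 := span_induction (p := fun y _ => y 2 = y 4) (by rintro _ ⟨u, a, rfl⟩; exact k2 u a _)
    rfl (by simp +contextual) (by simp +contextual) (this a (by simp))
  exact nv_inj _ _ (by simpa [mu] using this)

end Pool.Agent.H.MP_c77619_lc
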