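import Pool.Agent.H.MP_c77619_lc.A

set_option autoImplicit false

namespace Pool.Agent.H.MP_c77619_lc

open Pool.Agent.Lib.helper4.SigLP Pool.Agent.Lib.PR Submodule

inductive Th (h g : List (List ℕ)) (Ru : List Rl) : ℕ → ℕ → Vc → Prop
  | zero {A t} : Th h g Ru A t []
  | bin {A B C t u v} : (0, A, B, C) ∈ Ru → Th h g Ru B t u → Th h g Ru C t v → Th h g Ru A t (vm u v)
  | push {A B f t u} {s : ℕ → Vc} : (1, A, B, f) ∈ Ru → Th h g Ru B (f + 1) u → (∀ m, Th h g Ru (m / 5) t (s m)) →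
      Th h g Ru A t (u.map (sub fun i => (s (i / 5)).getD (i % 5) []))
  | pop {A B f i} : (2, A, B, f) ∈ Ru → i < 5 → Th h g Ru A (f + 1) (vv (5 * B + i))
  | ter {A a c t} : (3, A, a, c) ∈ Ru → Th h g Ru A t (cv h g [a])
  | eps {A b c t} : (4, A, b, c) ∈ Ru → Th h g Ru A t (cv h g [])

variable {h g : List (List ℕ)} {Ru : List Rl}

theorem th_sem {A t u} (a : Th h g Ru A t u) : ∀ γ (x : ℕ → ℚ), tp γ = t → (∀ f τ, γ = f :: τ → ∀ m,
    (fun j : Fin 5 => x (5 * m + j)) ∈ span ℚ (mu h g '' {w | Gen Ru (m / 5) τ w})) →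
    vev x u ∈ span ℚ (mu h g '' {w | Gen Ru A γ w}) := by
  induction a with
  | zero => exact fun _ _ _ _ => zero_mem _
  | bin r _ _ a b =>
    intro γ x e k
    rw [vev_vm]
    refine m5_mem ?_ (a γ x e k) (b γ x e k)
    rintro _ ⟨u, a, rfl⟩ _ ⟨v, b, rfl⟩
    exact subset_span ⟨_, .bin r a b, mu_app ..⟩
  | @push _ _ f _ _ s r _ _ a b =>
    intro γ x e k
    rw [vev_sub]
    refine span_mono (Set.image_mono fun w => .push r) (a (f :: γ) _ rfl ?_)
    rintro _ _ ⟨⟩ m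
    refine Set.mem_of_eq_of_mem (funext fun j => ?_) (b m γ x e k)
    rw [vev, show (5 * m + j) / 5 = m by omega, show (5 * m + j) % 5 = j by omega]
  | @pop _ B _ i r l =>
    rintro (_ | ⟨f, τ⟩) x ⟨⟩ k
    have := k _ τ rfl (5 * B + i)
    rw [show (5 * B + i) / 5 = B by omega] at this
    exact vev_vv .. ▸ span_mono (Set.image_mono fun w => .pop r) this
  | ter r => exact fun _ _ _ _ => vev_cv .. ▸ subset_span ⟨_, .ter r, rfl⟩
  | eps r => exact fun _ _ _ _ => vev_cv .. ▸ subset_span ⟨_, .eps r, rfl⟩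

def PP (N : ℕ) : Subring ((ℕ → ℚ) → ℚ) := Subring.closure ((fun i x => x i) '' {i | i < N})

theorem th_P {N} (k : ∀ r ∈ Ru, r.2.2.1 < N) {A t u} (a : Th h g Ru A t u) :
    ∀ j, (fun x => ev x (u.getD j [])) ∈ PP (25 * N) := by
  have gd : ∀ u : Vc, (∀ p ∈ u, (fun x => ev x p) ∈ PP (25 * N)) → ∀ j, (fun x => ev x (u.getD j [])) ∈ PP (25 * N) :=
    fun u a j => by
      by_cases l : j < u.length
      · exact a _ (by simp [l])
      · rw [List.getD_eq_default _ _ (not_lt.1 l)]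
        exact zero_mem _
  refine gd _ ?_
  induction a with
  | zero => simp
  | bin r _ _ a b =>
    have := fun i j => mul_mem (gd _ a i) (gd _ b j)
    simp only [vm, List.forall_mem_cons, ev_mul, ev_app]
    exact ⟨this _ _, this _ _, add_mem (this _ _) (this _ _), this _ _, add_mem (this _ _) (this _ _), by simp⟩
  | @push _ _ f _ _ s r _ _ a b =>
    simp only [List.forall_mem_map, ev_sub]
    intro p _
    refine Set.mem_of_eq_of_mem (y := ev (fun i x => ev x ((s (i / 5)).getD (i % 5) [])) p)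
      (funext fun x => (ev_map (x := fun i x => ev x ((s (i / 5)).getD (i % 5) []))
        (Pi.evalRingHom (fun _ => ℚ) x) p).symm) (list_sum_mem (S := PP (25 * N)) ?_)
    simp only [List.forall_mem_map]
    refine fun m _ => list_prod_mem ?_
    simp only [List.forall_mem_map]
    exact fun i _ => gd _ (b _) _
  | @pop _ B _ i r l =>
    have := k _ r
    simp only [vv, List.forall_mem_map, List.mem_range]
    exact fun j e => Subring.subset_closure ⟨5 * (5 * B + i) + j, by dsimp at this ⊢; omega, by simp⟩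
  | ter r => simp only [cv, List.forall_mem_map, ev_rep]; exact fun n _ => natCast_mem _ n
  | eps r => simp only [cv, List.forall_mem_map, ev_rep]; exact fun n _ => natCast_mem _ n

theorem pp_dif {N φ} (a : φ ∈ PP N) : ∃ p q, ∀ x, φ x = ev x p - ev x q := by
  induction a using Subring.closure_induction with
  | mem _ a => obtain ⟨i, -, rfl⟩ := a; exact ⟨[[i]], [], by simp⟩
  | zero => exact ⟨[], [], by simp⟩
  | one => exact ⟨[[]], [], by simp⟩
  | add _ _ _ _ a b =>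
    obtain ⟨p, q, a⟩ := a; obtain ⟨p', q', b⟩ := b
    exact ⟨p ++ p', q ++ q', fun x => by simp [a, b]; ring⟩
  | neg _ _ a => obtain ⟨p, q, a⟩ := a; exact ⟨q, p, by simp [a]⟩
  | mul _ _ _ _ a b =>
    obtain ⟨p, q, a⟩ := a; obtain ⟨p', q', b⟩ := b
    exact ⟨mul p p' ++ mul q q', mul p q' ++ mul q p', fun x => by simp [a, b]; ring⟩

theorem fg {N} {T : Vc → Prop} (k : ∀ u, T u → ∀ j, (fun x => ev x (u.getD j [])) ∈ PP N) :
    ∃ L : List Vc, (∀ u ∈ L, T u) ∧ ∀ u, T u → Mem L u := by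
  classical
  have : IsNoetherianRing (PP N) := is_noetherian_subring_closure _ ((Set.finite_lt_nat N).image _)
  let F : {u // T u} → Fin 5 → PP N := fun u j => ⟨_, k u.1 u.2 j⟩
  obtain ⟨s, s1, s2⟩ := (fg_span_iff_fg_span_finset_subset _).1 (IsNoetherian.noetherian (span (PP N) (Set.range F)))
  choose U hU using s1
  refine ⟨s.attach.toList.map fun a => (U a.2).1, List.forall_mem_map.2 fun a _ => (U a.2).2, fun u a => ?_⟩
  generalize hL : List.map _ _ = L
  have : ∀ y ∈ span (PP N) (s : Set (Fin 5 → PP N)), ∃ c : List (LP × LP × Vc), (∀ a ∈ c, a.2.2 ∈ L) ∧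
      ∀ (j : Fin 5) x, (y j).1 x + ev x (cb c (·.2.1) j) = ev x (cb c (·.1) j) := fun y b => by
    induction b using span_induction with
    | mem y b => exact ⟨[([[]], [], (U b).1)], by simpa [← hL] using ⟨y, b, rfl⟩, fun j x => by
        have : (y j).1 x = ev x ((U b).1.getD j []) := (congrArg (fun y => (y j).1 x) (hU b)).symm
        simp [cb, this]⟩
    | zero => exact ⟨[], by simp, by simp [cb]⟩
    | add _ _ _ _ a b =>
      obtain ⟨c, a1, a⟩ := a; obtain ⟨c', b1, b⟩ := b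
      refine ⟨c ++ c', List.forall_mem_append.2 ⟨a1, b1⟩, fun j x => ?_⟩
      have := a j x
      have := b j x
      simp only [cb, List.flatMap_append, ev_app, Pi.add_apply, Subring.coe_add] at *
      linarith
    | smul r y _ a =>
      obtain ⟨c, a1, a⟩ := a
      obtain ⟨p, q, b⟩ := pp_dif r.2
      refine ⟨c.map fun e => (mul p e.1 ++ mul q e.2.1, mul p e.2.1 ++ mul q e.1, e.2.2), List.forall_mem_map.2 a1,
        fun j x => ?_⟩
      have : ∀ f f' : LP × LP × Vc → LP, ev x (c.flatMap fun e => mul (mul p (f e) ++ mul q (f' e)) (e.2.2.getD j [])) =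
          ev x p * ev x (cb c f j) + ev x q * ev x (cb c f' j) := fun f f' => by
        clear a a1
        induction c <;> simp_all [cb]
        ring
      simp only [cb, List.flatMap_map] at this ⊢
      rw [this, this]
      have := a j x
      simp only [cb, Pi.smul_apply, smul_eq_mul, Subring.coe_mul, Pi.mul_apply, b] at this ⊢
      linear_combination (ev x p - ev x q) * this
  obtain ⟨c, c1, c2⟩ := this _ (s2.le (subset_span ⟨⟨u, a⟩, rfl⟩))
  exact ⟨c, c1, fun j l x => by simpa [F] using c2 ⟨j, l⟩ x⟩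

theorem complete {S} (k : ∀ w, Gen Ru S [] w → hm h w = hm g w) : ∃ G N n, Cert h g Ru S G N n := by
  obtain ⟨N, n0, n1⟩ : ∃ N, S < N ∧ ∀ r ∈ Ru, r.2.1 < N ∧ r.2.2.1 < N ∧ r.2.2.2 < N :=
    ⟨S + (Ru.map fun r => r.2.1 + r.2.2.1 + r.2.2.2).sum + 1, by omega, fun r a => by
      have := List.single_le_sum (by simp) _ (List.mem_map_of_mem (f := fun r : Rl => r.2.1 + r.2.2.1 + r.2.2.2) a)
      omega⟩
  choose L L1 L2 using fun A t => fg fun u (a : Th h g Ru A t u) => th_P (fun r a => (n1 r a).2.1) a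
  let G : Tb := (List.range N).map fun A => (List.range (N + 1)).map (L A)
  have g1 : ∀ A < N, ∀ t < N + 1, gg G A t = L A t := fun A a t b => by simp [gg, G, a, b]
  have g2 : ∀ A, ∀ t < N + 1, ∀ u ∈ gg G A t, Th h g Ru A t u := fun A t b u => by
    by_cases a : A < N
    · exact g1 A a t b ▸ L1 A t u
    · simp [gg, G, a]
  obtain ⟨n, n2⟩ : ∃ n, ∀ A < N, ∀ t < N + 1, (L A t).length < n := ⟨_, fun A a t b => Nat.lt_succ_of_le ((Finset.single_le_sum (f := fun t => (L A t).length) (by simp) (Finset.mem_range.2 b)).trans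
      (Finset.single_le_sum (f := fun A => ∑ t ∈ .range (N + 1), (L A t).length) (by simp) (Finset.mem_range.2 a)))⟩
  refine ⟨G, N, n, fun A a t b => g1 A a t b ▸ n2 A a t b, fun u a x => ?_, fun r a => ⟨(n1 r a).2, fun t b => ?_⟩⟩
  · exact span_induction (p := fun y _ => y 2 = y 4) (by rintro _ ⟨w, a, rfl⟩; simp [mu, k w a])
      rfl (by simp +contextual) (by simp +contextual) (th_sem (g2 _ _ (by omega) u a) [] x rfl (by simp))
  · obtain ⟨i, A, B, C⟩ := r
    obtain ⟨a1, a2, a3⟩ := n1 _ a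
    rw [g1 _ a1 t b, g1 _ a1 _ (by simpa)]
    refine ⟨?_, ?_, ?_, ?_, ?_⟩ <;> rintro rfl
    · exact fun u c v d => L2 _ _ _ (.bin a (g2 _ _ b u c) (g2 _ _ b v d))
    · refine fun u c d _ => L2 _ _ _ (.push (s := fun m => (gg G (m / 5) t).getD (d / n ^ m % n) []) a
        (g2 _ _ (by simpa) u c) fun m => ?_)
      rw [List.getD_eq_getElem?_getD]
      cases e : (gg G (m / 5) t)[d / n ^ m % n]? with
      | none => exact .zero
      | some v => exact g2 _ _ b v (List.mem_of_getElem? e)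
    · exact fun i l => L2 _ _ _ (.pop a l)
    · exact L2 _ _ _ (.ter a)
    · exact L2 _ _ _ (.eps a)

def St (Ru : List Rl) (u v : List ((ℕ × List ℕ) ⊕ ℕ)) : Prop :=
  ∃ (pre suf : List ((ℕ × List ℕ) ⊕ ℕ)) (A : ℕ) (σ : List ℕ), u = pre ++ Sum.inl (A, σ) :: suf ∧
    ∃ r ∈ Ru, r.2.1 = A ∧ ((r.1 = 0 ∧ v = pre ++ Sum.inl (r.2.2.1, σ) :: Sum.inl (r.2.2.2, σ) :: suf) ∨
      (r.1 = 1 ∧ v = pre ++ Sum.inl (r.2.2.1, r.2.2.2 :: σ) :: suf) ∨
      (r.1 = 2 ∧ ∃ τ : List ℕ, σ = r.2.2.2 :: τ ∧ v = pre ++ Sum.inl (r.2.2.1, τ) :: suf) ∨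
      (r.1 = 3 ∧ v = pre ++ Sum.inr r.2.2.1 :: suf) ∨ (r.1 = 4 ∧ v = pre ++ suf))

def GnL (Ru : List Rl) : List ((ℕ × List ℕ) ⊕ ℕ) → List ℕ → Prop
  | [], w => w = []
  | .inr a :: u, w => ∃ v, w = a :: v ∧ GnL Ru u v
  | .inl a :: u, w => ∃ x v, w = x ++ v ∧ Gen Ru a.1 a.2 x ∧ GnL Ru u v

theorem gen_iff {S w} : Relation.ReflTransGen (St Ru) [.inl (S, [])] (w.map .inr) ↔ Gen Ru S [] w := by
  refine ⟨fun a => ?_, fun a => ?_⟩
  · have : ∀ u, Relation.ReflTransGen (St Ru) u (w.map .inr) → GnL Ru u w := fun u a => by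
      refine a.head_induction_on (by clear * - w; induction w <;> simp [GnL, *]) ?_
      rintro _ v ⟨p, s, A, σ, rfl, ⟨i, _, B, C⟩, r, rfl, c⟩ - d
      have : ∀ {x y}, (∀ w, GnL Ru x w → GnL Ru y w) → ∀ w, GnL Ru (p ++ x) w → GnL Ru (p ++ y) w := fun k => by
        clear c
        induction p with
        | nil => exact k
        | cons a p ih =>
          obtain a | a := a
          exacts [fun w ⟨x, v, a, b, c⟩ => ⟨x, v, a, b, ih v c⟩, fun w ⟨v, a, c⟩ => ⟨v, a, ih v c⟩]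
      obtain ⟨⟨⟩, rfl⟩ | ⟨⟨⟩, rfl⟩ | ⟨⟨⟩, τ, rfl, rfl⟩ | ⟨⟨⟩, rfl⟩ | ⟨⟨⟩, rfl⟩ := c <;> refine this ?_ w d
      · rintro _ ⟨x, _, rfl, a, y, v, rfl, b, c⟩
        exact ⟨x ++ y, v, by simp, .bin r a b, c⟩
      · exact fun w ⟨x, v, a, b, c⟩ => ⟨x, v, a, .push r b, c⟩
      · exact fun w ⟨x, v, a, b, c⟩ => ⟨x, v, a, .pop r b, c⟩
      · exact fun w ⟨v, a, c⟩ => ⟨_, v, a, .ter r, c⟩
      · exact fun w c => ⟨_, w, rfl, .eps r, c⟩
    obtain ⟨x, _, rfl, b, rfl⟩ := this _ a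
    simpa using b
  · have : ∀ {A σ w}, Gen Ru A σ w → ∀ p s, Relation.ReflTransGen (St Ru) (p ++ .inl (A, σ) :: s) (p ++ w.map .inr ++ s) :=
      fun a => by
        induction a with
        | bin r _ _ a b =>
          exact fun p s => .head ⟨p, s, _, _, rfl, _, r, rfl, .inl ⟨rfl, rfl⟩⟩ ((a ..).trans (by simpa using b (p ++ _) s))
        | push r _ a => exact fun p s => .head ⟨p, s, _, _, rfl, _, r, rfl, .inr (.inl ⟨rfl, rfl⟩)⟩ (a ..)
        | pop r _ a => exact fun p s => .head ⟨p, s, _, _, rfl, _, r, rfl, .inr (.inr (.inl ⟨rfl, _, rfl, rfl⟩))⟩ (a ..)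
        | ter r => exact fun p s => .single ⟨p, s, _, _, rfl, _, r, rfl, by simp⟩
        | eps r => exact fun p s => .single ⟨p, s, _, _, rfl, _, r, rfl, by simp⟩
    simpa using this a [] []

attribute [local irreducible] Primrec

theorem s_st : Sig fun z : List Rl × List ((ℕ × List ℕ) ⊕ ℕ) × List ((ℕ × List ℕ) ⊕ ℕ) => St z.1 z.2.1 z.2.2 := by
  have : ∀ (σ : List ℕ) f (P : List ℕ → Prop), (∃ τ, σ = f :: τ ∧ P τ) ↔ σ = f :: σ.tail ∧ P σ.tail :=
    fun σ f P => ⟨by rintro ⟨_, rfl, a⟩; exact ⟨rfl, a⟩, fun a => ⟨_, a⟩⟩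
  simp only [St, this]
  exact .ex (.ex (.ex (.ex (.prim (by fun_prop)))))

section
variable {α : Type} [Primcodable α]

theorem s_mem {L : α → List Vc} {u : α → Vc} (a : Primrec L) (b : Primrec u) : Sig fun x => Mem (L x) (u x) :=
  .ex (.prim (by unfold cb; fun_prop))

@[fun_prop] theorem p_hm {h : α → _} {w : α → _} (a : Primrec h) (b : Primrec w) : Primrec fun x => hm (h x) (w x) := by
  unfold hm; fun_prop
@[fun_prop] theorem p_gg {G : α → _} {A t : α → _} (a : Primrec G) (b : Primrec A) (c : Primrec t) :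
    Primrec fun x => gg (G x) (A x) (t x) := by unfold gg; fun_prop
@[fun_prop] theorem p_cv {h g : α → _} {w : α → _} (a : Primrec h) (c : Primrec g) (b : Primrec w) :
    Primrec fun x => cv (h x) (g x) (w x) := by unfold cv na nv; fun_prop

theorem s_cert {h g : α → _} {Ru : α → _} {S N n : α → _} {G : α → _} (_ : Primrec h) (_ : Primrec g) (_ : Primrec Ru)
    (_ : Primrec S) (_ : Primrec G) (_ : Primrec N) (_ : Primrec n) :
    Sig fun x => Cert (h x) (g x) (Ru x) (S x) (G x) (N x) (n x) := by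
  unfold Cert
  refine .and (.prim (by fun_prop)) (.and (.prim (by fun_prop)) ?_)
  repeat' with_reducible first
    | apply Sig.ball | apply Sig.blt | apply Sig.imp | apply s_mem | apply Sig.and
  all_goals
    try apply Sig.prim
    try simp only [vm, vv]
    try unfold sc
    fun_prop

end

end Pool.Agent.H.MP_c77619_lc
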